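import Pool.Agent.H518R3.RD.Defs

set_option autoImplicit false

open scoped ComplexOrder InnerProductSpace Topology
open Filter

noncomputable section

namespace Pool.Agent.H518R3.RD.T_BIN

open H759R2.Kad H710R2.DP H917R2.Tr Pool.Agent.H735G Pool.Agent.H467F

/-- all bounded operators -/
def full (H : Type) [NormedAddCommGroup H] [InnerProductSpace ℂ H] [CompleteSpace H] :
    VonNeumannAlgebra H where
  toStarSubalgebra := ⊤
  centralizer_centralizer' := by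
    apply Set.eq_univ_of_forall
    intro x
    rw [Set.mem_centralizer_iff]
    intro c hc
    rw [Set.mem_centralizer_iff] at hc
    exact (hc x (by simp)).symm

theorem mem_full {H : Type} [NormedAddCommGroup H] [InnerProductSpace ℂ H] [CompleteSpace H]
    (x : H →L[ℂ] H) : x ∈ full H := by
  change x ∈ (⊤ : StarSubalgebra ℂ (H →L[ℂ] H))
  trivial

theorem r_BIN (hZ : Z_bin) : R_BIN := by
  intro H _ _ _ x hx0 hx1
  have step : ∀ (n : ℕ) (y : {y : H →L[ℂ] H // 0 ≤ y ∧ y ≤ algebraMap ℝ (H →L[ℂ] H) ((1 / 2) ^ n)}),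
      ∃ e : H →L[ℂ] H, IsPr e ∧ (∀ w : H →L[ℂ] H, w * y.1 = y.1 * w → w * e = e * w) ∧
        0 ≤ y.1 - ((1 / 2 : ℝ) ^ n / 2) • e ∧
        y.1 - ((1 / 2 : ℝ) ^ n / 2) • e ≤ algebraMap ℝ (H →L[ℂ] H) ((1 / 2) ^ n / 2) := by
    intro n y
    obtain ⟨e, _, h1, h2, h3, h4⟩ := hZ H (full H) y.1 ((1 / 2) ^ n) (mem_full _) y.2.1 y.2.2
    exact ⟨e, h1, h2, h3, h4⟩
  choose e he1 he2 he3 he4 using step
  have hpow : ∀ n : ℕ, (1 / 2 : ℝ) ^ (n + 1) = (1 / 2) ^ n / 2 := fun n => by rw [pow_succ]; ring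
  let f : (n : ℕ) → {y : H →L[ℂ] H // 0 ≤ y ∧ y ≤ algebraMap ℝ (H →L[ℂ] H) ((1 / 2) ^ n)} :=
    fun n => Nat.rec
      ⟨x, hx0, by
        rw [pow_zero]
        exact (CStarAlgebra.norm_le_iff_le_algebraMap x zero_le_one hx0).1 hx1⟩
      (fun n y => ⟨y.1 - ((1 / 2 : ℝ) ^ n / 2) • e n y, he3 n y, by
        rw [hpow]; exact he4 n y⟩) n
  have f0 : (f 0).1 = x := rfl
  have fs : ∀ n, (f (n + 1)).1 = (f n).1 - ((1 / 2 : ℝ) ^ n / 2) • e n (f n) := fun n => rfl
  have hnorm : ∀ n, ‖(f n).1‖ ≤ (1 / 2) ^ n := fun n =>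
    (CStarAlgebra.norm_le_iff_le_algebraMap _ (by positivity) (f n).2.1).2 (f n).2.2
  refine ⟨fun n => e n (f n), fun n => ⟨he1 n _, ?_⟩, ?_⟩
  · rw [cc, Set.mem_centralizer_iff]
    intro s hs
    rw [Set.mem_centralizer_iff] at hs
    have hsx : s * x = x * s := (hs x rfl).symm
    have hsf : ∀ n, s * (f n).1 = (f n).1 * s := by
      intro n
      induction n with
      | zero => exact hsx
      | succ n ih =>
        rw [fs, mul_sub, sub_mul, ih, mul_smul_comm, smul_mul_assoc, he2 n (f n) s ih]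
    exact he2 n (f n) s (hsf n)
  · rw [cc, Set.mem_centralizer_iff]
    intro s hs
    rw [Set.mem_centralizer_iff] at hs
    have hse : ∀ n, s * e n (f n) = e n (f n) * s := fun n => (hs _ ⟨n, rfl⟩).symm
    have hd : ∀ n, s * x - x * s = s * (f n).1 - (f n).1 * s := by
      intro n
      induction n with
      | zero => rw [f0]
      | succ n ih =>
        rw [ih, fs, mul_sub, sub_mul, mul_smul_comm, smul_mul_assoc, hse n]
        abel
    have hb : ∀ n, ‖s * x - x * s‖ ≤ 2 * ‖s‖ * (1 / 2) ^ n := by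
      intro n
      rw [hd n]
      calc ‖s * (f n).1 - (f n).1 * s‖ ≤ ‖s * (f n).1‖ + ‖(f n).1 * s‖ := norm_sub_le _ _
        _ ≤ ‖s‖ * ‖(f n).1‖ + ‖(f n).1‖ * ‖s‖ := add_le_add (norm_mul_le _ _) (norm_mul_le _ _)
        _ = 2 * ‖s‖ * ‖(f n).1‖ := by ring
        _ ≤ 2 * ‖s‖ * (1 / 2) ^ n := by
          apply mul_le_mul_of_nonneg_left (hnorm n); positivity
    have hlim : Tendsto (fun n : ℕ => 2 * ‖s‖ * (1 / 2 : ℝ) ^ n) atTop (𝓝 0) := by
      have := (tendsto_pow_atTop_nhds_zero_of_lt_one (r := (1 / 2 : ℝ)) (by norm_num)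
        (by norm_num)).const_mul (2 * ‖s‖)
      simpa using this
    have h0 : ‖s * x - x * s‖ ≤ 0 := ge_of_tendsto' hlim hb
    have h1 : s * x - x * s = 0 := norm_le_zero_iff.1 h0
    exact sub_eq_zero.1 h1

end Pool.Agent.H518R3.RD.T_BIN
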