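import Pool.Agent.H518R3.RD.Defs

set_option autoImplicit false

open scoped ComplexOrder InnerProductSpace Topology
open Filter

noncomputable section

namespace Pool.Agent.H518R3.RD.T_CORC

open H759R2.Kad H710R2.DP H917R2.Tr Pool.Agent.H735G Pool.Agent.H467F
open ContinuousLinearMap

theorem r_CORC : R_CORC := by
  intro H _ _ _ M z K _ _ _ ι N hz hC hT
  obtain ⟨T, hT⟩ := hT
  have hiso : (adjoint ι) ∘L ι = 1 := hC.isom
  have hrng : ι ∘L (adjoint ι) = z := hC.rng
  -- pointwise versions
  have iso : ∀ k : K, adjoint ι (ι k) = k := fun k => by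
    have := congrArg (fun f => f k) hiso
    simpa using this
  have rng : ∀ x : H, ι (adjoint ι x) = z x := fun x => by
    have := congrArg (fun f => f x) hrng
    simpa using this
  have hzι : ∀ k : K, z (ι k) = ι k := fun k => by rw [← rng, iso]
  have hιz : ∀ x : H, adjoint ι (z x) = adjoint ι x := fun x => by rw [← rng, iso]
  have hTN : T ∈ (N : Set (K →L[ℂ] K)) := by
    rw [hT]
    exact Set.subset_centralizer_centralizer (by simp)
  have hTN' : star T ∈ (N : Set (K →L[ℂ] K)) := by
    rw [hT]
    exact Set.subset_centralizer_centralizer (by simp)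
  set T1 : K →L[ℂ] K := (1 / 2 : ℂ) • (T + star T) with hT1
  set T2 : K →L[ℂ] K := (-Complex.I / 2 : ℂ) • (T - star T) with hT2
  have hT1N : T1 ∈ N := by
    have h1 : T ∈ N := hTN
    have h2 : star T ∈ N := hTN'
    exact N.toStarSubalgebra.smul_mem (N.toStarSubalgebra.add_mem h1 h2) _
  have hT2N : T2 ∈ N := by
    have h1 : T ∈ N := hTN
    have h2 : star T ∈ N := hTN'
    exact N.toStarSubalgebra.smul_mem (N.toStarSubalgebra.sub_mem h1 h2) _
  have hT1s : star T1 = T1 := by
    rw [hT1, star_smul, star_add, star_star, add_comm]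
    congr 1
    simp
  have hT2s : star T2 = T2 := by
    rw [hT2, star_smul, star_sub, star_star]
    have : star (-Complex.I / 2 : ℂ) = -(-Complex.I / 2 : ℂ) := by
      simp [Complex.ext_iff]
      norm_num
    rw [this, neg_smul, ← smul_neg, neg_sub]
  have hTsum : T = T1 + Complex.I • T2 := by
    rw [hT1, hT2, smul_smul]
    have : Complex.I * (-Complex.I / 2) = 1 / 2 := by
      rw [mul_div_assoc', mul_neg, Complex.I_mul_I, neg_neg]
    rw [this, ← smul_add]
    have : (T + star T + (T - star T)) = (2 : ℂ) • T := by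
      rw [two_smul]; abel
    rw [this, smul_smul]; norm_num
  have hTsum' : star T = T1 - Complex.I • T2 := by
    rw [hT1, hT2, smul_smul]
    have : Complex.I * (-Complex.I / 2) = 1 / 2 := by
      rw [mul_div_assoc', mul_neg, Complex.I_mul_I, neg_neg]
    rw [this, ← smul_sub]
    have : (T + star T - (T - star T)) = (2 : ℂ) • star T := by
      rw [two_smul]; abel
    rw [this, smul_smul]; norm_num
  let up : (K →L[ℂ] K) → (H →L[ℂ] H) := fun y => ι ∘L y ∘L adjoint ι
  have hup : ∀ y x, up y x = ι (y (adjoint ι x)) := fun y x => rfl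
  have hups : ∀ y, star (up y) = up (star y) := by
    intro y
    simp only [star_eq_adjoint, up]
    rw [adjoint_comp, adjoint_comp, adjoint_adjoint]
    rfl
  refine ⟨up T1, up T2, hC.up T1 hT1N, hC.up T2 hT2N, ?_, ?_, ?_, ?_, ?_⟩
  · rw [hups, hT1s]
  · rw [hups, hT2s]
  · ext x; change z (ι _) = ι _; rw [hzι]
  · ext x; change z (ι _) = ι _; rw [hzι]
  intro x hx
  -- `s` in the commutant
  rw [cc, Set.mem_centralizer_iff]
  intro s hs
  rw [Set.mem_centralizer_iff] at hs
  have hsA : ∀ v, up T1 (s v) = s (up T1 v) := fun v => by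
    have := congrArg (fun f => f v) (hs (up T1) (by simp))
    simpa using this
  have hsB : ∀ v, up T2 (s v) = s (up T2 v) := fun v => by
    have := congrArg (fun f => f v) (hs (up T2) (by simp))
    simpa using this
  have hsz : ∀ v, z (s v) = s (z v) := fun v => by
    have := congrArg (fun f => f v) (hs z (by simp))
    simpa using this
  set t : K →L[ℂ] K := (adjoint ι) ∘L s ∘L ι with ht
  have htk : ∀ k, t k = adjoint ι (s (ι k)) := fun k => rfl
  -- s ι = ι t
  have hsι : ∀ k, s (ι k) = ι (t k) := fun k => by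
    rw [htk, rng, hsz, hzι]
  have hιs : ∀ v, adjoint ι (s v) = t (adjoint ι v) := fun v => by
    rw [htk, rng, ← hsz, hιz]
  have hc1 : ∀ k, T1 (t k) = t (T1 k) := fun k => by
    have h := hsA (ι k)
    rw [hup, hup, iso] at h
    -- ι (T1 (ι* (s ι k))) = s (ι (T1 k))
    rw [hιs, iso, hsι] at h
    have h' := congrArg (adjoint ι) h
    rwa [iso, iso] at h'
  have hc2 : ∀ k, T2 (t k) = t (T2 k) := fun k => by
    have h := hsB (ι k)
    rw [hup, hup, iso] at h
    rw [hιs, iso, hsι] at h
    have h' := congrArg (adjoint ι) h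
    rwa [iso, iso] at h'
  have htc : t ∈ Set.centralizer ({T, star T} : Set (K →L[ℂ] K)) := by
    rw [Set.mem_centralizer_iff]
    intro m hm
    simp only [Set.mem_insert_iff, Set.mem_singleton_iff] at hm
    rcases hm with rfl | rfl
    · ext k
      rw [hTsum]
      change T1 (t k) + Complex.I • T2 (t k) = t (T1 k + Complex.I • T2 k)
      rw [map_add, map_smul, hc1, hc2]
    · ext k
      rw [hTsum']
      change T1 (t k) - Complex.I • T2 (t k) = t (T1 k - Complex.I • T2 k)
      rw [map_sub, map_smul, hc1, hc2]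
  have hy : (adjoint ι) ∘L x ∘L ι ∈ (N : Set (K →L[ℂ] K)) := hC.down x hx
  rw [hT, Set.mem_centralizer_iff] at hy
  have hty := hy t htc
  have htyk : ∀ k, t (adjoint ι (x (ι k))) = adjoint ι (x (ι (t k))) := fun k => by
    have := congrArg (fun f => f k) hty
    simpa using this
  -- z commutes with x
  have hzx : ∀ v, z (x v) = x (z v) := fun v => by
    have h1 : IsCen M z := hz.2
    have h2 := h1.2 x hx
    have := congrArg (fun f => f v) h2
    simpa using this
  have hzz : ∀ v, z (z v) = z v := fun v => by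
    rw [← rng v, hzι]
  have key : ∀ v, z (x v) = ι (adjoint ι (x (ι (adjoint ι v)))) := fun v => by
    rw [rng, rng, ← hzx, hzz]
  ext v
  change s (z (x v)) = z (x (s v))
  rw [key v, hsι, htyk, key (s v), hιs]

end Pool.Agent.H518R3.RD.T_CORC
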